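import Pool.Agent.Q255.HC.Stm

/-! Project HC, job AEG: almost sure bounds for families of polynomial size. -/

set_option autoImplicit false

namespace Pool.Agent.Q257.HC

open Finset Filter Topology MeasureTheory
open Pool.Agent.Q255.HC

section

variable {E : Type} [MeasurableSpace E] {μ : Measure E} {ι : Type} [Zero ι] {e : ι → E → ℂ}
  {v : ι → ℝ}

theorem ex_meas (h : Sys μ e v) (x : ℕ →₀ ι) : Measurable (ex e x) := by
  unfold ex
  exact Finset.measurable_prod _ fun p _ => (h.meas _).comp (measurable_pi_apply p)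

theorem ex_le (h : Sys μ e v) (x : ℕ →₀ ι) (ω : ℕ → E) : ‖ex e x ω‖ ≤ 1 := by
  unfold ex
  rw [norm_prod]
  exact Finset.prod_le_one (fun p _ => norm_nonneg _) fun p _ => h.bd _ _

theorem prob_le [IsProbabilityMeasure μ] (h : Sys μ e v) (S : Finset (ℕ →₀ ι)) (c : (ℕ →₀ ι) → ℂ)
    (m : ℕ) {L B : ℝ} (hL : 0 < L)
    (hB : ∫ ω, ‖∑ x ∈ S, c x * ex e x ω‖ ^ (2 * m) ∂(Measure.infinitePi fun _ : ℕ => μ) ≤ B) :
    (Measure.infinitePi fun _ : ℕ => μ) {ω | L < ‖∑ x ∈ S, c x * ex e x ω‖} ≤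
      ENNReal.ofReal (B / L ^ (2 * m)) := by
  set P : Measure (ℕ → E) := Measure.infinitePi fun _ : ℕ => μ with hP
  have hm : Measurable fun ω => ∑ x ∈ S, c x * ex e x ω :=
    Finset.measurable_fun_sum _ fun x _ => (ex_meas h x).const_mul _
  have hb : ∀ ω, ‖∑ x ∈ S, c x * ex e x ω‖ ≤ ∑ x ∈ S, ‖c x‖ := by
    intro ω
    refine (norm_sum_le _ _).trans (Finset.sum_le_sum fun x _ => ?_)
    rw [norm_mul]
    exact mul_le_of_le_one_right (norm_nonneg _) (ex_le h x ω)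
  have hint : Integrable (fun ω => ‖∑ x ∈ S, c x * ex e x ω‖ ^ (2 * m)) P :=
    Integrable.of_bound (hm.norm.pow_const _).aestronglyMeasurable ((∑ x ∈ S, ‖c x‖) ^ (2 * m))
      (Eventually.of_forall fun ω => by
        rw [Real.norm_of_nonneg (by positivity)]
        exact pow_le_pow_left₀ (norm_nonneg _) (hb ω) _)
  have h2 := mul_meas_ge_le_integral_of_nonneg (μ := P)
    (f := fun ω => ‖∑ x ∈ S, c x * ex e x ω‖ ^ (2 * m))
    (Eventually.of_forall fun ω => by positivity) hint (L ^ (2 * m))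
  have h3 : P.real {ω | L ^ (2 * m) ≤ ‖∑ x ∈ S, c x * ex e x ω‖ ^ (2 * m)} ≤ B / L ^ (2 * m) := by
    rw [le_div_iff₀ (by positivity), mul_comm]
    exact h2.trans hB
  have h4 : P {ω | L < ‖∑ x ∈ S, c x * ex e x ω‖} ≤
      P {ω | L ^ (2 * m) ≤ ‖∑ x ∈ S, c x * ex e x ω‖ ^ (2 * m)} := by
    refine measure_mono fun ω hω => ?_
    have hω' : L < ‖∑ x ∈ S, c x * ex e x ω‖ := hω
    exact pow_le_pow_left₀ hL.le hω'.le _
  refine h4.trans ?_
  rw [← ENNReal.ofReal_toReal (measure_ne_top P _)]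
  exact ENNReal.ofReal_le_ofReal h3

end

/-- HC-AEG -/
theorem t_AEG (hH : S_HCI) : S_AEG := by
  intro E _ μ _ ι _ _ e v hS τ T A C0 hT S c Y hv hY ε hε
  obtain ⟨m0, hm0⟩ := exists_nat_ge ((A + 2 : ℝ) / ε)
  obtain ⟨m, hm1, hmA⟩ : ∃ m : ℕ, 1 ≤ m ∧ (A + 2 : ℝ) ≤ m * ε := by
    refine ⟨m0 + 1, by omega, ?_⟩
    rw [div_le_iff₀ hε] at hm0
    push_cast
    nlinarith
  obtain ⟨C, hC, hHC⟩ := hH m hm1
  obtain ⟨D, hD⟩ := hv C hC ε hε
  set D1 : ℝ := max D 0 with hD1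
  have hD10 : 0 ≤ D1 := le_max_right _ _
  set P : Measure (ℕ → E) := Measure.infinitePi fun _ : ℕ => μ with hP
  set Bd : ℕ → Set (ℕ → E) := fun R => if 1 ≤ R then ⋃ t ∈ T R,
    {ω | (R : ℝ) ^ ε * Real.sqrt (Y R t) < ‖∑ x ∈ S R t, c R t x * ex e x ω‖} else ∅ with hBd
  have hC0 : 0 ≤ C0 := by
    have h1 := hT 1 le_rfl
    have h2 : (0 : ℝ) ≤ ((T 1).card : ℝ) := Nat.cast_nonneg _
    simp at h1
    linarith
  have key : ∀ R : ℕ, P (Bd R) ≤ ENNReal.ofReal (C0 * D1 ^ m * (1 / (R : ℝ) ^ 2)) := by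
    intro R
    by_cases hR : 1 ≤ R
    swap
    · simp only [hBd, if_neg hR, measure_empty]
      exact zero_le
    have hRR : (1 : ℝ) ≤ R := by exact_mod_cast hR
    have hRp : (0 : ℝ) < R := by linarith
    have hRe : (0 : ℝ) < (R : ℝ) ^ ε := Real.rpow_pos_of_pos hRp _
    have h1 : ∀ t ∈ T R, P {ω | (R : ℝ) ^ ε * Real.sqrt (Y R t) < ‖∑ x ∈ S R t, c R t x * ex e x ω‖} ≤
        ENNReal.ofReal (D1 ^ m / ((R : ℝ) ^ ε) ^ m) := by
      intro t ht
      obtain ⟨hY0, hY1⟩ := hY R hR t ht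
      have hm2 := hHC E μ ι e v hS (S R t) (c R t)
      have hs0 : 0 ≤ ∑ x ∈ S R t, ‖c R t x‖ ^ 2 * ∏ p ∈ x.support, (C * v (x p)) := by
        refine Finset.sum_nonneg fun x _ => mul_nonneg (sq_nonneg _) (Finset.prod_nonneg fun p _ => ?_)
        have := hS.vpos (x p)
        nlinarith
      have hs1 : ∑ x ∈ S R t, ‖c R t x‖ ^ 2 * ∏ p ∈ x.support, (C * v (x p)) ≤
          D1 * (R : ℝ) ^ ε * Y R t := by
        calc _ ≤ ∑ x ∈ S R t, ‖c R t x‖ ^ 2 * (D1 * (R : ℝ) ^ ε) := by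
              refine Finset.sum_le_sum fun x hx => mul_le_mul_of_nonneg_left ?_ (sq_nonneg _)
              refine (hD R hR t ht x hx).trans ?_
              exact mul_le_mul_of_nonneg_right (le_max_left _ _) hRe.le
          _ = D1 * (R : ℝ) ^ ε * ∑ x ∈ S R t, ‖c R t x‖ ^ 2 := by
              rw [← Finset.sum_mul, mul_comm]
          _ ≤ _ := mul_le_mul_of_nonneg_left hY1 (mul_nonneg hD10 hRe.le)
      have hm3 := hm2.trans (pow_le_pow_left₀ hs0 hs1 m)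
      have hL : 0 < (R : ℝ) ^ ε * Real.sqrt (Y R t) := mul_pos hRe (Real.sqrt_pos.2 hY0)
      refine (prob_le hS (S R t) (c R t) m hL hm3).trans (ENNReal.ofReal_le_ofReal (le_of_eq ?_))
      rw [pow_mul ((R : ℝ) ^ ε * Real.sqrt (Y R t)), mul_pow _ _ 2, Real.sq_sqrt hY0.le, ← div_pow,
        ← div_pow]
      congr 1
      field_simp
    have h2 : P (Bd R) ≤ ∑ t ∈ T R, P {ω | (R : ℝ) ^ ε * Real.sqrt (Y R t) <
        ‖∑ x ∈ S R t, c R t x * ex e x ω‖} := by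
      simp only [hBd, if_pos hR]
      exact measure_biUnion_finset_le _ _
    refine h2.trans ((Finset.sum_le_sum h1).trans ?_)
    rw [Finset.sum_const, nsmul_eq_mul, ← ENNReal.ofReal_natCast,
      ← ENNReal.ofReal_mul (Nat.cast_nonneg _)]
    refine ENNReal.ofReal_le_ofReal ?_
    have h3 := hT R hR
    have h4 : ((R : ℝ) ^ ε) ^ m = (R : ℝ) ^ (m * ε) := by
      rw [← Real.rpow_natCast, ← Real.rpow_mul hRp.le, mul_comm]
    have h5 : (R : ℝ) ^ A * (R : ℝ) ^ 2 ≤ (R : ℝ) ^ (m * ε) := by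
      rw [← pow_add, ← Real.rpow_natCast]
      refine Real.rpow_le_rpow_of_exponent_le hRR ?_
      push_cast
      exact hmA
    rw [h4]
    have h6 : 0 ≤ D1 ^ m := pow_nonneg hD10 m
    have h7 : (0 : ℝ) < (R : ℝ) ^ (m * ε) := Real.rpow_pos_of_pos hRp _
    calc ((T R).card : ℝ) * (D1 ^ m / (R : ℝ) ^ (m * ε)) ≤
        (C0 * (R : ℝ) ^ A) * (D1 ^ m / (R : ℝ) ^ (m * ε)) :=
          mul_le_mul_of_nonneg_right h3 (by positivity)
      _ = (C0 * D1 ^ m) * ((R : ℝ) ^ A / (R : ℝ) ^ (m * ε)) := by ring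
      _ ≤ (C0 * D1 ^ m) * (1 / (R : ℝ) ^ 2) := by
          refine mul_le_mul_of_nonneg_left ?_ (mul_nonneg hC0 h6)
          rw [div_le_div_iff₀ h7 (by positivity), one_mul]
          exact h5
  have hsum : Summable fun R : ℕ => C0 * D1 ^ m * (1 / (R : ℝ) ^ 2) :=
    (Real.summable_one_div_nat_pow.2 (by norm_num)).mul_left _
  have hne : ∑' R, P (Bd R) ≠ ⊤ :=
    ne_top_of_le_ne_top hsum.tsum_ofReal_ne_top (ENNReal.tsum_le_tsum key)
  filter_upwards [ae_eventually_notMem hne] with ω hω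
  filter_upwards [hω, eventually_ge_atTop 1] with R hR hR1 t ht
  by_contra hcon
  apply hR
  simp only [hBd, if_pos hR1, Set.mem_iUnion]
  exact ⟨t, ht, not_le.1 hcon⟩

end Pool.Agent.Q257.HC
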